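import Pool.Agent.L7h23.QX.Rsx

/-!
Project QX (helper3), parts LIX, ERX and PHX.
-/

set_option autoImplicit false
set_option linter.unusedVariables false
set_option linter.unusedSectionVars false
set_option linter.unusedSimpArgs false

open Filter Complex
open scoped Topology PeriodPair
open H667R3 hiding sq
open Pool.Agent.TH936.CM Pool.Agent.W192.HK

namespace Pool.Agent.L7h23.QX

open Pool.Agent.Y699 Pool.Agent.L7h3.QX
open Pool.Agent.L7h3.QD (MG)
open H385 (ZI RQ im1 nrm)
open Pool.Agent.H304R3.HK (tc HC LH chi_le)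
open Pool.Agent.W164.RC (tc_mul tc_star two2 prim_iff_dvd unit_cases)
open Pool.Agent.H304R2.EC.A1 (prim prim_mul prim_cancel prim_one prim_norm_odd prim_star eq_one_of_prim
  norm_def' re_mul' im_mul' eq_of_dvd prim_ne_zero)

variable {L : PeriodPair} {Ω : ℂ} {ι : Type} [DecidableEq ι] {pr : ι → ZI}

/-- the character at a unit -/
lemma c4_imw (hp : PF pr) {V : Finset ι} {e : ι → ℕ} {w : ℕ} (hw : Wt pr V e % 4 = w) (a : ZI) :
    tc (c4 pr V e (im1 * a)) = I ^ w * tc (c4 pr V e a) := by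
  rw [c4_mul hp, c4_unit hp V e im1_norm, unit_pow_mod im1_norm (n := w) (by omega), tc_mul, tc_pow,
    tc_im1]

lemma FE_per (h : IsLat L RG Ω) (δ : ℝ) {z w : ℂ} (hzw : w - z ∈ L.lattice) : FE Ω δ w = FE Ω δ z := by
  have h1 : ∀ t : ℂ, EG Ω δ (w + t) = EG Ω δ (z + t) := by
    intro t
    apply EG_per h
    have e : w + t - (z + t) = w - z := by ring
    rw [e]; exact hzw
  unfold FE
  rw [h1, h1, h1, EG_per h δ hzw]

lemma GE_per (h : IsLat L RG Ω) (k : ℕ) (δ : ℝ) {z w : ℂ} (hzw : w - z ∈ L.lattice) :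
    GE Ω k δ w = GE Ω k δ z := by
  have h1 : ∀ t : ℂ, FE Ω δ (t + w) = FE Ω δ (t + z) := by
    intro t
    apply FE_per h
    have e : t + w - (t + z) = w - z := by ring
    rw [e]; exact hzw
  unfold GE
  rw [h1, h1]

theorem t_LIX (hV : S_DIX) : S_LIX := by
  intro L Ω h w k c κ ε hk hK ι _ pr hp V e hW _
  have hR := t_RSX
  have hDp : prim (DD pr V) := DD_prim hp V
  have hDc := tc_ne (DD_ne hp V)
  have hΩ := h.lat.ne
  have hc : 0 < Complex.normSq (8 * tc (DD pr V) / Ω) :=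
    Complex.normSq_pos.2 (div_ne_zero (mul_ne_zero (by norm_num) hDc) hΩ)
  rcases Finset.eq_empty_or_nonempty V with hV0 | hVn
  · subst hV0
    have hD1 : DD pr (∅ : Finset ι) = 1 := by unfold DD; simp
    haveI hss : Subsingleton (RQ (DD pr (∅ : Finset ι))) := by
      rw [Ideal.Quotient.subsingleton_iff, hD1, Ideal.span_singleton_one]
    have hw0 : w = 0 := by
      rw [← hW]; unfold Wt; simp
    have hal : tc (al (DD pr (∅ : Finset ι))) = 1 := by rw [hD1, al_one, tc_one]
    have h2 := (tendsto_scale (hK.emp hw0) hc).const_mul (Ω / 8)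
    have e3 : Ω / 8 * (2 * c * κ) = tc (al (DD pr (∅ : Finset ι))) ^ k * (Ω * c / (2 * tc (DD pr (∅ : Finset ι)))) *
        MX L Ω κ ε w pr ∅ e := by
      unfold MX
      rw [if_pos rfl, hal, hD1, tc_one]
      ring
    rw [← e3]
    refine h2.congr' ?_
    filter_upwards [self_mem_nhdsWithin] with δ (hδ : 0 < δ)
    rw [hR L Ω h.lat ι pr hp ∅ e k hk δ hδ, hal, one_pow, one_mul, Fintype.sum_subsingleton _ (0 : RQ (DD pr ∅))]
    have e4 : tc (c4 pr (∅ : Finset ι) e (8 * (0 : RQ (DD pr ∅)).out)) = 1 := by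
      unfold c4
      rw [Finset.prod_empty, tc_one]
    rw [e4, one_mul]
    have e5 : GE Ω k (δ * Complex.normSq (8 * tc (DD pr ∅) / Ω)) (zq Ω (DD pr ∅) (0 : RQ (DD pr ∅)).out) =
        GE Ω k (δ * Complex.normSq (8 * tc (DD pr ∅) / Ω)) 0 := by
      apply GE_per h.lat
      rw [sub_zero]
      refine (mem_lat h.lat).2 ⟨(0 : RQ (DD pr ∅)).out, ?_⟩
      unfold zq
      rw [hD1, tc_one]
      ring
    rw [e5, hD1, tc_one, mul_one]
  · have h1 := hV L Ω h w k c κ ε hK (DD pr V) hDp (fun t => tc (c4 pr V e (8 * t)))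
      (fun a b hab => by
        show tc (c4 pr V e (8 * a)) = tc (c4 pr V e (8 * b))
        rw [c4_per hp V e (a := 8 * a) (b := 8 * b) (by rw [← mul_sub]; exact hab.mul_left _)])
      (fun a => by
        show tc (c4 pr V e (8 * (im1 * a))) = I ^ w * tc (c4 pr V e (8 * a))
        have e1 : 8 * (im1 * a) = im1 * (8 * a) := by ring
        rw [e1, c4_imw hp hW])
      (fun a ha => by
        obtain ⟨i, hi⟩ := hVn
        show tc (c4 pr V e (8 * a)) = 0
        rw [c4_zero e hi (((dvd_DD hi).trans ha).mul_left _), tc_zero])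
    have h2 := (tendsto_scale h1 hc).const_mul (tc (al (DD pr V)) ^ k * (Ω / (8 * tc (DD pr V))))
    have e3 : tc (al (DD pr V)) ^ k * (Ω / (8 * tc (DD pr V))) * (c *
        ∑ q : RQ (DD pr V), tc (c4 pr V e (8 * q.out)) * gX L (℘[L] (Ω / 2)) κ ε w (zq Ω (DD pr V) q.out)) =
        tc (al (DD pr V)) ^ k * (Ω * c / (2 * tc (DD pr V))) * MX L Ω κ ε w pr V e := by
      unfold MX
      rw [if_neg hVn.ne_empty]
      unfold MG
      field_simp
      ring
    rw [← e3]
    refine h2.congr' ?_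
    filter_upwards [self_mem_nhdsWithin] with δ (hδ : 0 < δ)
    exact (hR L Ω h.lat ι pr hp V e k hk δ hδ).symm

/-! ### a vanishing exponent -/

lemma al_cases (a : ZI) : tc (al a) ^ 4 = 1 := by
  rw [tc_al, ← pow_mul, mul_comm, pow_mul, I_pow_four, one_pow]

lemma tc_al_ne (a : ZI) : tc (al a) ≠ 0 := by
  intro h0
  have := al_cases a
  rw [h0] at this
  norm_num at this

lemma tc_al_norm (a : ZI) : ‖tc (al a)‖ = 1 := by rw [tc_al, norm_pow, norm_I, one_pow]

lemma ccx_bd (hp : PF pr) (k : ℕ) (V : Finset ι) (e : ι → ℕ) (a : ZI) : ‖ccx k pr V e a‖ ≤ 1 := by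
  unfold ccx
  split_ifs
  · rw [norm_mul, norm_pow, tc_al_norm, one_pow, one_mul]
    exact c4_bd hp V e a
  · rw [norm_zero]; norm_num

/-- the relation of the regularized sums -/
lemma RS_erase (h : IsLat L RG Ω) (hp : PF pr) (k : ℕ) {V : Finset ι} {i : ι} (hi : i ∈ V) {e : ι → ℕ}
    (he : e i = 0) {δ : ℝ} (hδ : 0 < δ) :
    RS (ccx k pr V e) δ = RS (ccx k pr (V.erase i) e) δ -
      (tc (al (pr i)) ^ k * tc (c4 pr (V.erase i) e (pr i))) / tc (pr i) *
        RS (ccx k pr (V.erase i) e) (δ * Complex.normSq (tc (pr i))) := by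
  classical
  have h1 := RS_dvd (π := pr i) (hp.pp i).ne (ccx k pr (V.erase i) e) δ
  have h3 : RS (fun b => ccx k pr (V.erase i) e (pr i * b)) (δ * Complex.normSq (tc (pr i))) =
      tc (al (pr i)) ^ k * tc (c4 pr (V.erase i) e (pr i)) *
        RS (ccx k pr (V.erase i) e) (δ * Complex.normSq (tc (pr i))) := by
    unfold RS
    rw [← tsum_mul_left]
    refine tsum_congr fun b => ?_
    have e5 : ccx k pr (V.erase i) e (pr i * b) =
        tc (al (pr i)) ^ k * tc (c4 pr (V.erase i) e (pr i)) * ccx k pr (V.erase i) e b := by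
      unfold ccx
      by_cases hb : prim b
      · rw [if_pos ((prim_mul_iff (hp.pp i).prm).2 hb), if_pos hb, c4_mul hp, tc_mul,
          al_mul (hp.pp i).prm hb, tc_mul, mul_pow]
        ring
      · rw [if_neg (fun h' => hb ((prim_mul_iff (hp.pp i).prm).1 h')), if_neg hb, mul_zero]
    show ccx k pr (V.erase i) e (pr i * b) * fd (δ * Complex.normSq (tc (pr i))) (tc b) = _
    rw [e5, mul_assoc]
  rw [h3] at h1
  have h4 : ∀ a, ccx k pr V e a = ccx k pr (V.erase i) e a -
      (if pr i ∣ a then ccx k pr (V.erase i) e a else 0) := by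
    intro a
    have h5 : c4 pr V e a = fe (pr i) 0 a * c4 pr (V.erase i) e a := by
      unfold c4
      rw [← Finset.mul_prod_erase V _ hi, he]
    unfold ccx
    rw [h5]
    unfold fe
    by_cases ha : prim a
    · rw [if_pos ha, if_pos ha]
      by_cases hd : pr i ∣ a
      · rw [if_pos hd, if_pos hd, zero_mul, tc_zero, sub_self, mul_zero]
      · rw [if_neg hd, if_neg hd, pow_zero, one_mul, sub_zero]
    · rw [if_neg ha, if_neg ha]
      split_ifs <;> simp
  have hs1 := summ_bd h hδ (ccx_bd hp k (V.erase i) e)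
  have hs2 : Summable (fun a : ZI => (if pr i ∣ a then ccx k pr (V.erase i) e a else 0) * fd δ (tc a)) := by
    refine summ_bd h hδ (C := 1) fun a => ?_
    split_ifs
    · exact ccx_bd hp _ _ _ a
    · rw [norm_zero]; norm_num
  have h6 : RS (ccx k pr V e) δ = RS (ccx k pr (V.erase i) e) δ -
      RS (fun a => if pr i ∣ a then ccx k pr (V.erase i) e a else 0) δ := by
    unfold RS
    rw [← hs1.tsum_sub hs2]
    refine tsum_congr fun a => ?_
    rw [h4 a]
    ring
  rw [h6, h1]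
  ring

theorem t_ERX (hL : S_LIX) : S_ERX := by
  classical
  intro L Ω h w k c κ ε hk hK ι _ pr hp V e i hi he hW _ _
  have hWe : Wt pr (V.erase i) e = Wt pr V e := by
    unfold Wt
    rw [← Finset.add_sum_erase V _ hi, he, zero_mul, zero_add]
  have hW' : Wt pr (V.erase i) e % 4 = w := by rw [hWe]; exact hW
  have l1 := hL L Ω h w k c κ ε hk hK ι pr hp V e hW
  have l2 := hL L Ω h w k c κ ε hk hK ι pr hp (V.erase i) e hW'
  have hπ0 := tc_ne (hp.pp i).ne
  have hD0' := tc_ne (DD_ne hp (V.erase i))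
  have hDV0 : DD pr V = pr i * DD pr (V.erase i) := by
    unfold DD
    rw [Finset.mul_prod_erase V pr hi]
  have hDV : tc (DD pr V) = tc (pr i) * tc (DD pr (V.erase i)) := by
    rw [hDV0, tc_mul]
  have hsd : tc (al (DD pr V)) = tc (al (pr i)) * tc (al (DD pr (V.erase i))) := by
    rw [hDV0, al_mul (hp.pp i).prm (DD_prim hp _), tc_mul]
  have hc : 0 < Complex.normSq (tc (pr i)) := Complex.normSq_pos.2 hπ0
  have l3 := l2.sub ((tendsto_scale l2 hc).const_mul
    ((tc (al (pr i)) ^ k * tc (c4 pr (V.erase i) e (pr i))) / tc (pr i)))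
  have l4 := tendsto_nhds_unique (l1.congr' (by
    filter_upwards [self_mem_nhdsWithin] with δ (hδ : 0 < δ)
    exact RS_erase h.lat hp k hi he hδ)) l3
  have hΩ := h.lat.ne
  have hc0 := hK.c0
  have hs0 : tc (al (pr i)) ≠ 0 := tc_al_ne _
  have hs0' : tc (al (DD pr (V.erase i))) ≠ 0 := tc_al_ne _
  rw [hDV, hsd] at l4
  generalize MX L Ω κ ε w pr V e = M at l4 ⊢
  generalize MX L Ω κ ε w pr (V.erase i) e = M' at l4 ⊢
  generalize tc (c4 pr (V.erase i) e (pr i)) = x at l4 ⊢
  generalize tc (al (pr i)) = s at l4 hs0 ⊢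
  generalize tc (al (DD pr (V.erase i))) = s' at l4 hs0'
  generalize tc (pr i) = π at l4 hπ0 ⊢
  generalize tc (DD pr (V.erase i)) = D' at l4 hD0'
  have hsk : s ^ k ≠ 0 := pow_ne_zero k hs0
  have hsk' : s' ^ k ≠ 0 := pow_ne_zero k hs0'
  have k1 : s' ^ k * (Ω * c / (2 * D')) * (s ^ k / π * M) =
      s' ^ k * (Ω * c / (2 * D')) * (M' * (1 - s ^ k * x / π)) := by
    have e1 : (s * s') ^ k * (Ω * c / (2 * (π * D'))) * M = s' ^ k * (Ω * c / (2 * D')) * (s ^ k / π * M) := by
      rw [mul_pow]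
      field_simp
    rw [← e1, l4]
    ring
  have hne : s' ^ k * (Ω * c / (2 * D')) ≠ 0 :=
    mul_ne_zero hsk' (div_ne_zero (mul_ne_zero hΩ hc0) (mul_ne_zero two_ne_zero hD0'))
  have k2 := mul_left_cancel₀ hne k1
  have k3 : M = (s ^ k)⁻¹ * π * (s ^ k / π * M) := by
    field_simp
  rw [k3, k2]
  field_simp

/-! ### the factor -/

theorem t_PHX : S_PHX := by
  intro Γ _ v h2 ι _ _ pr hp V e i k hk hi
  have c1 := fac4_cg h2 hp (e := e) hi
  have h1I : (1 + I : ℂ) ≠ 0 := one_I_ne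
  -- the inverse is a unit
  have hb : (tc (al (pr i)) ^ k)⁻¹ = tc (al (pr i) ^ (3 * k)) := by
    rw [tc_pow]
    apply inv_eq_of_mul_eq_one_right
    rw [← pow_add]
    have : k + 3 * k = 4 * k := by ring
    rw [this, pow_mul, al_cases, one_pow]
  have hbp : al (pr i) ^ (3 * k) = im1 ^ (wq (pr i) * (3 * k)) := by
    unfold al
    rw [← pow_mul]
  have hnorm : (al (pr i) ^ (3 * k)).norm = 1 := by
    rw [hbp]
    generalize wq (pr i) * (3 * k) = m
    induction m with
    | zero => rw [pow_zero]; decide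
    | succ m ih => rw [pow_succ, Zsqrtd.norm_mul, ih, im1_norm, one_mul]
  have hsq : (if (al (pr i) ^ (3 * k)) ^ 2 = -1 then (1 : ZMod 2) else 0) = wt pr i := by
    rw [wt_wq hp, hbp, ← pow_mul, mul_comm _ 2, pow_mul]
    have e1 : (im1 : ZI) ^ 2 = -1 := by decide
    rw [e1]
    rcases Nat.even_or_odd (wq (pr i)) with hw | hw
    · have h1 : Even (wq (pr i) * (3 * k)) := hw.mul_right _
      rw [h1.neg_one_pow, if_neg (by decide)]
      symm
      exact (ZMod.natCast_eq_zero_iff _ _).2 hw.two_dvd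
    · have h1 : Odd (wq (pr i) * (3 * k)) := by
        apply hw.mul
        exact (by decide : Odd 3).mul (Nat.odd_iff.2 hk)
      rw [h1.neg_one_pow, if_pos rfl]
      symm
      have h2' : ((wq (pr i) : ℕ) : ZMod 2) = ((1 : ℕ) : ZMod 2) := by
        rw [ZMod.natCast_eq_natCast_iff]
        exact Nat.odd_iff.1 hw
      rw [h2']; norm_num
  have c2 := unit_cg h2 hnorm
  rw [hsq] at c2
  have c3 : Cg v (tc (pr i)) 1 := by
    apply (tc_par h2 _).2
    have := (hp.pp i).prm
    unfold prim at this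
    omega
  have c4' := ((cg_one_neg h2).mul c2).mul c3
  have c5 := c1.add c4'
  have e0 : ((tc (al (pr i)) ^ k)⁻¹ * tc (pr i) - tc (c4 pr V e (pr i))) / (1 + I) =
      (tc (pr i) - tc (c4 pr V e (pr i))) / (1 + I) +
        -1 * ((1 - tc (al (pr i) ^ (3 * k))) / (1 + I)) * tc (pr i) := by
    rw [hb]
    field_simp
    ring
  rw [e0]
  have e1 : uu (∑ u ∈ Od V e, em pr u i) + 1 * uu (wt pr i) * 1 =
      uu (∑ u ∈ Od V e, em pr u i) + uu (wt pr i) := by ring
  rw [e1] at c5
  rw [add_comm (wt pr i)]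
  exact c5.trans (uu_add h2 _ _).symm

end Pool.Agent.L7h23.QX
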