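import Pool.Agent.L7h3.QX.Stm

/-!
Project QX (helper3), part RSX: the regularized sum of level eight as a sum over the division points.
-/

set_option autoImplicit false
set_option linter.unusedVariables false
set_option linter.unusedSectionVars false
set_option linter.unusedSimpArgs false

open Filter Complex
open scoped Topology PeriodPair
open H667R3 hiding sq
open Pool.Agent.TH936.CM Pool.Agent.W192.HK

namespace Pool.Agent.L7h23.QX

open Pool.Agent.Y699 Pool.Agent.L7h3.QX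
open H385 (ZI RQ im1 nrm)
open Pool.Agent.H304R3.HK (tc HC LH chi_le)
open Pool.Agent.W164.RC (tc_mul tc_star two2 prim_iff_dvd unit_cases)
open Pool.Agent.H304R2.EC.A1 (prim prim_mul prim_cancel prim_one prim_norm_odd prim_star eq_one_of_prim
  norm_def' re_mul' im_mul' eq_of_dvd prim_ne_zero)

variable {L : PeriodPair} {Ω : ℂ} {ι : Type} [DecidableEq ι] {pr : ι → ZI}

/-- a sum over the elements `c D + m t` -/
theorem RS_gen (h : IsLat L RG Ω) {D m : ZI} (hD : prim D) (hm : m ≠ 0) (c : ZI) [Fintype (RQ D)] {F : ZI → ℂ}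
    (hF : ∀ a, ‖F a‖ ≤ 1) (hper : ∀ a b, D ∣ a - b → F a = F b) {δ : ℝ} (hδ : 0 < δ) :
    Summable (fun t : ZI => F t * fd δ (tc (c * D + m * t))) ∧
    ∑' t : ZI, F t * fd δ (tc (c * D + m * t)) = Ω / (tc m * tc D) *
      ∑ q : RQ D, F q.out *
        EG Ω (δ * Complex.normSq (tc m * tc D / Ω)) (tc c * (Ω / tc m) + zq Ω D q.out) := by
  have hD0 : D ≠ 0 := prim_ne_zero hD
  have hDc := tc_ne hD0
  have hmc := tc_ne hm
  have hΩ := h.ne
  have hinj : Function.Injective (fun t : ZI => c * D + m * t) := by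
    intro a b hab
    have : m * a = m * b := by
      have h1 : c * D + m * a = c * D + m * b := hab
      linear_combination h1
    exact mul_left_cancel₀ hm this
  have hs0 : Summable (fun t : ZI => fd δ (tc (c * D + m * t))) :=
    (summ_tc h hδ).comp_injective hinj
  have hs1 : Summable (fun t : ZI => F t * fd δ (tc (c * D + m * t))) := by
    refine Summable.of_norm_bounded hs0.norm fun t => ?_
    rw [norm_mul]
    exact mul_le_of_le_one_left (norm_nonneg _) (hF t)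
  refine ⟨hs1, ?_⟩
  set k : ℂ := tc m * tc D / Ω with hk
  have hk0 : k ≠ 0 := div_ne_zero (mul_ne_zero hmc hDc) hΩ
  have hs2 : Summable (fun p : RQ D × ZI =>
      F (prt' D hD0 p) * fd δ (tc (c * D + m * prt' D hD0 p))) :=
    ((prt' D hD0).summable_iff (f := fun t => F t * fd δ (tc (c * D + m * t)))).2 hs1
  rw [← (prt' D hD0).tsum_eq, hs2.tsum_prod' (fun q => hs2.prod_factor q), tsum_fintype,
    Finset.mul_sum]
  refine Finset.sum_congr (by ext; simp) fun q _ => ?_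
  unfold EG
  rw [← tsum_mul_left, ← tsum_mul_left]
  refine tsum_congr fun b => ?_
  have e2 : F (prt' D hD0 (q, b)) = F q.out := by
    apply hper
    rw [prt'_apply]
    exact ⟨b, by ring⟩
  have e3 : tc (c * D + m * prt' D hD0 (q, b)) =
      k * (tc c * (Ω / tc m) + zq Ω D q.out + Ω * tc b) := by
    rw [prt'_apply, tc_add, tc_mul, tc_mul, tc_add, tc_mul, hk]
    unfold zq
    field_simp
    ring
  rw [e2, e3, fd_mul, hk, inv_div]
  ring

lemma tc_eight : tc (8 : ZI) = 8 := by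
  have := tc_int 8
  push_cast at this
  exact this

lemma eight_ne : (8 : ZI) ≠ 0 := by decide

lemma dvd_eight (z : ZI) : (8 : ZI) ∣ z ↔ z.re % 8 = 0 ∧ z.im % 8 = 0 := by
  have e1 : (8 : ZI).re = 8 := rfl
  have e2 : (8 : ZI).im = 0 := rfl
  constructor
  · rintro ⟨c, rfl⟩
    rw [re_mul', im_mul', e1, e2]
    omega
  · rintro ⟨h1, h2⟩
    refine ⟨⟨z.re / 8, z.im / 8⟩, ?_⟩
    ext
    · rw [re_mul', e1, e2]; simp only; omega
    · rw [im_mul', e1, e2]; simp only; omega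

/-- the primary classes modulo eight -/
def C8 : Finset ZI := {⟨1, 0⟩, ⟨1, 4⟩, ⟨5, 0⟩, ⟨5, 4⟩, ⟨3, 2⟩, ⟨3, 6⟩, ⟨7, 2⟩, ⟨7, 6⟩}

lemma C8_prim : ∀ c ∈ C8, prim c := by
  intro c hc
  simp only [C8, Finset.mem_insert, Finset.mem_singleton] at hc
  unfold prim
  rcases hc with rfl | rfl | rfl | rfl | rfl | rfl | rfl | rfl <;> decide

lemma C8_uniq : ∀ c ∈ C8, ∀ c' ∈ C8, (8 : ZI) ∣ c - c' → c = c' := by
  intro c hc c' hc' h
  rw [dvd_eight] at h
  simp only [Zsqrtd.re_sub, Zsqrtd.im_sub] at h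
  simp only [C8, Finset.mem_insert, Finset.mem_singleton] at hc hc'
  rcases hc with rfl | rfl | rfl | rfl | rfl | rfl | rfl | rfl <;>
    rcases hc' with rfl | rfl | rfl | rfl | rfl | rfl | rfl | rfl <;>
    first
    | rfl
    | (exfalso; revert h; decide)

lemma C8_ex {b : ZI} (hb : prim b) : ∃ c ∈ C8, (8 : ZI) ∣ b - c := by
  obtain ⟨h1, h2⟩ := hb
  have h3 : b.im % 8 = 0 ∨ b.im % 8 = 2 ∨ b.im % 8 = 4 ∨ b.im % 8 = 6 := by omega
  have key : ∀ x y : ℤ, (b.re - x) % 8 = 0 → (b.im - y) % 8 = 0 → (8 : ZI) ∣ b - ⟨x, y⟩ := by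
    intro x y hx hy
    rw [dvd_eight]
    simp only [Zsqrtd.re_sub, Zsqrtd.im_sub]
    exact ⟨hx, hy⟩
  rcases h3 with h3 | h3 | h3 | h3
  · have h4 : b.re % 8 = 1 ∨ b.re % 8 = 5 := by omega
    rcases h4 with h4 | h4
    · exact ⟨⟨1, 0⟩, by decide, key _ _ (by omega) (by omega)⟩
    · exact ⟨⟨5, 0⟩, by decide, key _ _ (by omega) (by omega)⟩
  · have h4 : b.re % 8 = 3 ∨ b.re % 8 = 7 := by omega
    rcases h4 with h4 | h4
    · exact ⟨⟨3, 2⟩, by decide, key _ _ (by omega) (by omega)⟩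
    · exact ⟨⟨7, 2⟩, by decide, key _ _ (by omega) (by omega)⟩
  · have h4 : b.re % 8 = 1 ∨ b.re % 8 = 5 := by omega
    rcases h4 with h4 | h4
    · exact ⟨⟨1, 4⟩, by decide, key _ _ (by omega) (by omega)⟩
    · exact ⟨⟨5, 4⟩, by decide, key _ _ (by omega) (by omega)⟩
  · have h4 : b.re % 8 = 3 ∨ b.re % 8 = 7 := by omega
    rcases h4 with h4 | h4
    · exact ⟨⟨3, 6⟩, by decide, key _ _ (by omega) (by omega)⟩
    · exact ⟨⟨7, 6⟩, by decide, key _ _ (by omega) (by omega)⟩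

lemma prim_of_eight {a b : ZI} (hb : prim b) (h : (8 : ZI) ∣ a - b) : prim a := by
  rw [dvd_eight] at h
  simp only [Zsqrtd.re_sub, Zsqrtd.im_sub] at h
  obtain ⟨h1, h2⟩ := hb
  unfold prim
  omega

/-- the fourth power of a primary element is `1` modulo `8` -/
lemma pow_four_eight {D : ZI} (hD : prim D) : (8 : ZI) ∣ D ^ 4 - 1 := by
  obtain ⟨x, hx⟩ := (prim_iff_dvd D).1 hD
  have hD' : D = 1 + two2 * x := by rw [← hx]; ring
  have h2 : two2 ^ 2 = 8 * im1 := by decide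
  have h1 : 4 * two2 = 8 * ⟨1, 1⟩ := by decide
  have e : D ^ 4 - 1 = (4 * two2) * x + 6 * two2 ^ 2 * x ^ 2 + (4 * two2) * two2 ^ 2 * x ^ 3 +
      two2 ^ 2 * two2 ^ 2 * x ^ 4 := by
    rw [hD']
    ring
  rw [e, h2, h1]
  exact ⟨⟨1, 1⟩ * x + 6 * im1 * x ^ 2 + ⟨1, 1⟩ * (8 * im1) * x ^ 3 + im1 * (8 * im1) * x ^ 4, by ring⟩

/-- every primary element is `c D` modulo eight -/
lemma class_ex {D a : ZI} (hD : prim D) (ha : prim a) : ∃ c ∈ C8, (8 : ZI) ∣ a - c * D := by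
  have hb : prim (a * (D * (D * D))) := prim_mul ha (prim_mul hD (prim_mul hD hD))
  obtain ⟨c, hc, h⟩ := C8_ex hb
  refine ⟨c, hc, ?_⟩
  have e : a - c * D = (a * (D * (D * D)) - c) * D - a * (D ^ 4 - 1) := by ring
  rw [e]
  exact dvd_sub (h.mul_right _) ((pow_four_eight hD).mul_left _)

lemma class_uniq {D a c c' : ZI} (hD : prim D) (hc : c ∈ C8) (hc' : c' ∈ C8) (h : (8 : ZI) ∣ a - c * D)
    (h' : (8 : ZI) ∣ a - c' * D) : c = c' := by
  apply C8_uniq c hc c' hc'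
  have e : c - c' = ((a - c' * D) - (a - c * D)) * (D * (D * D)) - (c - c') * (D ^ 4 - 1) := by ring
  rw [e]
  exact dvd_sub ((dvd_sub h' h).mul_right _) ((pow_four_eight hD).mul_left _)

lemma nrm_prim {z : ZI} (hz : prim z) : nrm z % 4 = 1 := by
  have h1 : ((nrm z : ℕ) : ℤ) = z.norm := by exact_mod_cast nrm_cast z
  obtain ⟨h2, h3⟩ := hz
  rw [norm_def'] at h1
  obtain ⟨y, hy⟩ : ∃ y, z.im = 2 * y := ⟨z.im / 2, by omega⟩
  obtain ⟨x, hx⟩ : ∃ x, z.re = 2 * x + 1 := ⟨z.re / 2, by omega⟩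
  rw [hx, hy] at h1
  have h4 : ((nrm z : ℕ) : ℤ) = 1 + 4 * (x ^ 2 + x + y ^ 2) := by rw [h1]; ring
  omega

/-- `al` depends on the class modulo eight only -/
lemma al_eight {a b : ZI} (hb : prim b) (h : (8 : ZI) ∣ a - b) : al a = al b := by
  have ha := prim_of_eight hb h
  obtain ⟨t, ht⟩ := h
  have h1 : ((nrm a : ℕ) : ℤ) = a.norm := by exact_mod_cast nrm_cast a
  have h2 : ((nrm b : ℕ) : ℤ) = b.norm := by exact_mod_cast nrm_cast b
  have h3 := nrm_prim ha
  have h4 := nrm_prim hb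
  have e1 : a.re = b.re + 8 * t.re := by
    have := congrArg Zsqrtd.re ht
    rw [Zsqrtd.re_sub, re_mul'] at this
    have e1 : (8 : ZI).re = 8 := rfl
    have e2 : (8 : ZI).im = 0 := rfl
    rw [e1, e2] at this
    linarith
  have e2 : a.im = b.im + 8 * t.im := by
    have := congrArg Zsqrtd.im ht
    rw [Zsqrtd.im_sub, im_mul'] at this
    have e1 : (8 : ZI).re = 8 := rfl
    have e2 : (8 : ZI).im = 0 := rfl
    rw [e1, e2] at this
    linarith
  rw [norm_def'] at h1 h2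
  rw [e1, e2] at h1
  have h5 : ((nrm a : ℕ) : ℤ) = nrm b + 16 * (b.re * t.re + b.im * t.im + 4 * (t.re ^ 2 + t.im ^ 2)) := by
    rw [h1, h2]; ring
  unfold al
  apply unit_pow_mod im1_norm
  unfold wq
  generalize b.re * t.re + b.im * t.im + 4 * (t.re ^ 2 + t.im ^ 2) = m at h5
  omega

open Classical in
/-- the sum over a class modulo eight -/
lemma sum_class (h : IsLat L RG Ω) (hp : PF pr) (V : Finset ι) (e : ι → ℕ) (c : ZI)
    {δ : ℝ} (hδ : 0 < δ) :
    ∑' a : ZI, (if (8 : ZI) ∣ a - c * DD pr V then tc (c4 pr V e a) * fd δ (tc a) else 0) =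
      ∑' t : ZI, tc (c4 pr V e (8 * t)) * fd δ (tc (c * DD pr V + 8 * t)) := by
  have hinj : Function.Injective (fun t : ZI => c * DD pr V + 8 * t) := by
    intro a b hab
    have : (8 : ZI) * a = 8 * b := by
      have h1 : c * DD pr V + 8 * a = c * DD pr V + 8 * b := hab
      linear_combination h1
    exact mul_left_cancel₀ (by decide) this
  rw [← hinj.tsum_eq]
  · refine tsum_congr fun t => ?_
    have h5 : (8 : ZI) ∣ c * DD pr V + 8 * t - c * DD pr V := ⟨t, by ring⟩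
    rw [if_pos h5]
    congr 2
    apply c4_per hp
    exact ⟨c, by ring⟩
  · intro a ha
    rw [Function.mem_support] at ha
    have h5 : (8 : ZI) ∣ a - c * DD pr V := by
      by_contra hc
      rw [if_neg hc] at ha
      exact ha rfl
    obtain ⟨t, ht⟩ := h5
    exact ⟨t, by show c * DD pr V + 8 * t = a; rw [← ht]; ring⟩

lemma tc_al (c : ZI) : tc (al c) = I ^ wq c := by
  unfold al
  rw [tc_pow, tc_im1]

lemma nI_odd {k : ℕ} (hk : k % 2 = 1) : I ^ k = -I ^ (3 * k) := by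
  obtain ⟨m, rfl⟩ : ∃ m, k = 2 * m + 1 := ⟨k / 2, by omega⟩
  have e1 : I ^ (2 * m + 1) = (-1) ^ m * I := by rw [pow_succ, pow_mul, I_sq]
  have e2 : I ^ (3 * (2 * m + 1)) = -((-1) ^ m * I) := by
    have : 3 * (2 * m + 1) = 2 * (3 * m + 1) + 1 := by ring
    rw [this, pow_succ, pow_mul, I_sq, pow_succ, pow_mul]
    have : ((-1 : ℂ) ^ 3) = -1 := by norm_num
    rw [this]
    ring
  rw [e1, e2]
  ring

lemma al_pow {c : ZI} {k n : ℕ} (h : wq c % 4 = n % 4) : tc (al c) ^ k = I ^ (n * k) := by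
  rw [tc_al, ← pow_mul]
  have : I ^ wq c = I ^ n := by
    rw [← Nat.div_add_mod (wq c) 4, ← Nat.div_add_mod n 4, h, pow_add, pow_add, pow_mul, pow_mul, I_pow_four, one_pow,
      one_pow]
  rw [pow_mul, this, ← pow_mul]

theorem t_RSX : S_RSX := by
  classical
  intro L Ω h ι _ pr hp V e k hk _ δ hδ
  set D := DD pr V with hDdef
  have hDp : prim D := DD_prim hp V
  have hper : ∀ a b, D ∣ a - b → tc (c4 pr V e (8 * a)) = tc (c4 pr V e (8 * b)) := by
    intro a b hab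
    rw [c4_per hp V e (a := 8 * a) (b := 8 * b) (by rw [← mul_sub]; exact hab.mul_left _)]
  have h1 : ∀ c : ZI, ∑' t : ZI, tc (c4 pr V e (8 * t)) * fd δ (tc (c * D + 8 * t)) = Ω / (8 * tc D) *
      ∑ q : RQ D, tc (c4 pr V e (8 * q.out)) *
        EG Ω (δ * Complex.normSq (8 * tc D / Ω)) (tc c * (Ω / 8) + zq Ω D q.out) := by
    intro c
    have := (RS_gen h hDp eight_ne c (F := fun t => tc (c4 pr V e (8 * t)))
      (fun a => c4_bd hp V e _) hper hδ).2
    rw [tc_eight] at this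
    exact this
  have bd : ∀ (P : ZI → Prop) (a : ZI), ‖if P a then tc (c4 pr V e a) else 0‖ ≤ 1 := by
    intro P a
    split_ifs
    · exact c4_bd hp V e a
    · rw [norm_zero]; norm_num
  have sm : ∀ P : ZI → Prop, Summable (fun a : ZI => if P a then tc (c4 pr V e a) * fd δ (tc a) else 0) := by
    intro P
    refine (summ_bd h hδ (bd P)).congr fun a => ?_
    split_ifs
    · rfl
    · rw [zero_mul]
  have key : ∀ a : ZI, ccx k pr V e a * fd δ (tc a) =
      ∑ c ∈ C8, (tc (al D) ^ k * tc (al c) ^ k) *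
        (if (8 : ZI) ∣ a - c * D then tc (c4 pr V e a) * fd δ (tc a) else 0) := by
    intro a
    unfold ccx
    by_cases ha : prim a
    · obtain ⟨c, hc, hca⟩ := class_ex hDp ha
      rw [Finset.sum_eq_single_of_mem c hc]
      · rw [if_pos ha, if_pos hca, al_eight (prim_mul (C8_prim c hc) hDp) hca, al_mul (C8_prim c hc) hDp, tc_mul,
          mul_pow]
        ring
      · intro c' hc' hne
        rw [if_neg, mul_zero]
        intro h5
        exact hne (class_uniq hDp hc' hc h5 hca)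
    · rw [if_neg ha, zero_mul, Finset.sum_eq_zero]
      intro c hc
      rw [if_neg, mul_zero]
      intro h5
      exact ha (prim_of_eight (prim_mul (C8_prim c hc) hDp) h5)
  have hk3 : I ^ (1 * k) = -I ^ (3 * k) := by rw [one_mul]; exact nI_odd hk
  have hk2 : I ^ (2 * k) = -1 := by
    rw [pow_mul, I_sq]
    exact (Nat.odd_iff.2 hk).neg_one_pow
  have a1 : tc (al (⟨1, 0⟩ : ZI)) ^ k = 1 := by
    rw [al_pow (n := 0) (by decide), zero_mul, pow_zero]
  have a2 : tc (al (⟨1, 4⟩ : ZI)) ^ k = 1 := by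
    rw [al_pow (n := 0) (by decide), zero_mul, pow_zero]
  have a3 : tc (al (⟨5, 0⟩ : ZI)) ^ k = -1 := by rw [al_pow (n := 2) (by decide), hk2]
  have a4 : tc (al (⟨5, 4⟩ : ZI)) ^ k = -1 := by rw [al_pow (n := 2) (by decide), hk2]
  have a5 : tc (al (⟨3, 2⟩ : ZI)) ^ k = I ^ (3 * k) := by rw [al_pow (n := 3) (by decide)]
  have a6 : tc (al (⟨3, 6⟩ : ZI)) ^ k = I ^ (3 * k) := by rw [al_pow (n := 3) (by decide)]
  have a7 : tc (al (⟨7, 2⟩ : ZI)) ^ k = -I ^ (3 * k) := by rw [al_pow (n := 1) (by decide), hk3]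
  have a8 : tc (al (⟨7, 6⟩ : ZI)) ^ k = -I ^ (3 * k) := by rw [al_pow (n := 1) (by decide), hk3]
  have tcv : ∀ x y : ℤ, tc (⟨x, y⟩ : ZI) = x + y * I := fun x y => rfl
  unfold RS
  rw [tsum_congr key, Summable.tsum_finsetSum (fun c _ => (sm _).mul_left _)]
  have e1 : ∀ c ∈ C8, ∑' a : ZI, (tc (al D) ^ k * tc (al c) ^ k) *
      (if (8 : ZI) ∣ a - c * D then tc (c4 pr V e a) * fd δ (tc a) else 0) =
      tc (al D) ^ k * (Ω / (8 * tc D)) * ∑ q : RQ D, tc (c4 pr V e (8 * q.out)) * (tc (al c) ^ k *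
        EG Ω (δ * Complex.normSq (8 * tc D / Ω)) (tc c * (Ω / 8) + zq Ω D q.out)) := by
    intro c _
    rw [tsum_mul_left, sum_class h hp V e c hδ, h1 c, Finset.mul_sum, Finset.mul_sum, Finset.mul_sum]
    refine Finset.sum_congr rfl fun q _ => ?_
    ring
  rw [Finset.sum_congr rfl e1, ← Finset.mul_sum, Finset.sum_comm]
  congr 1
  refine Finset.sum_congr (by ext; simp) fun q _ => ?_
  rw [← Finset.mul_sum]
  congr 1
  generalize δ * Complex.normSq (8 * tc D / Ω) = d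
  generalize zq Ω D q.out = z
  have e2 : ∀ g : ZI → ℂ, ∑ c ∈ C8, g c = g ⟨1, 0⟩ + (g ⟨1, 4⟩ + (g ⟨5, 0⟩ + (g ⟨5, 4⟩ + (g ⟨3, 2⟩ + (g ⟨3, 6⟩ +
      (g ⟨7, 2⟩ + g ⟨7, 6⟩)))))) := by
    intro g
    unfold C8
    rw [Finset.sum_insert (by decide), Finset.sum_insert (by decide), Finset.sum_insert (by decide),
      Finset.sum_insert (by decide), Finset.sum_insert (by decide), Finset.sum_insert (by decide),
      Finset.sum_insert (by decide), Finset.sum_singleton]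
  rw [e2, a1, a2, a3, a4, a5, a6, a7, a8]
  unfold GE FE
  have p1 : tc (⟨1, 0⟩ : ZI) * (Ω / 8) + z = Ω / 8 + z := by rw [tcv]; push_cast; ring
  have p2 : tc (⟨1, 4⟩ : ZI) * (Ω / 8) + z = Ω / 8 + z + I * (Ω / 2) := by rw [tcv]; push_cast; ring
  have p3 : tc (⟨5, 0⟩ : ZI) * (Ω / 8) + z = Ω / 8 + z + Ω / 2 := by rw [tcv]; push_cast; ring
  have p4 : tc (⟨5, 4⟩ : ZI) * (Ω / 8) + z = Ω / 8 + z + (1 + I) * (Ω / 2) := by rw [tcv]; push_cast; ring
  have p5 : tc (⟨3, 2⟩ : ZI) * (Ω / 8) + z = (3 + 2 * I) * (Ω / 8) + z := by rw [tcv]; push_cast; ring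
  have p6 : tc (⟨3, 6⟩ : ZI) * (Ω / 8) + z = (3 + 2 * I) * (Ω / 8) + z + I * (Ω / 2) := by
    rw [tcv]; push_cast; ring
  have p7 : tc (⟨7, 2⟩ : ZI) * (Ω / 8) + z = (3 + 2 * I) * (Ω / 8) + z + Ω / 2 := by rw [tcv]; push_cast; ring
  have p8 : tc (⟨7, 6⟩ : ZI) * (Ω / 8) + z = (3 + 2 * I) * (Ω / 8) + z + (1 + I) * (Ω / 2) := by
    rw [tcv]; push_cast; ring
  rw [p1, p2, p3, p4, p5, p6, p7, p8]
  ring

end Pool.Agent.L7h23.QX
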